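import Mathlib
import Pool.Agent.H22.UnitalTab

namespace Pool.Agent.Results.MP_e444a1_co.Unital

open Pool.Agent.H22 Pool.Agent.H22.Unital

/-- A geometry: a finite matroid with no loops and no parallel elements. -/
def IsGeometry {α : Type} (M : Matroid α) : Prop :=
  M.E.Finite ∧ ∀ e ∈ M.E, ∀ f ∈ M.E, M.Indep {e, f}

/-- The vectors `v e`, `e` in the ground set, span `F ^ n` and represent `M`. -/
def Represents (F : Type) [Field F] {α : Type} (M : Matroid α) {n : ℕ}
    (v : α → Fin n → F) : Prop :=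
  (∀ I ⊆ M.E, (M.Indep I ↔ LinearIndepOn F v I)) ∧ Submodule.span F (v '' M.E) = ⊤

/-- A 1-block over `F`: a geometry with a spanning representation over `F` in which every
hyperplane (kernel of a linear functional) contains a point, i.e. critical exponent above 1. -/
def IsOneBlock (F : Type) [Field F] {α : Type} (M : Matroid α) : Prop :=
  IsGeometry M ∧ ∃ (n : ℕ) (v : α → Fin n → F), Represents F M v ∧
    ∀ φ : (Fin n → F) →ₗ[F] F, ∃ e ∈ M.E, φ (v e) = 0

/-- A tangential 1-block: a 1-block none of whose proper minors is a 1-block (the simple proper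
minors are exactly the simplifications of proper minors). -/
def IsTangentialOneBlock (F : Type) [Field F] {α : Type} (M : Matroid α) : Prop :=
  IsOneBlock F M ∧ ∀ N : Matroid α, N.IsStrictMinor M → ¬ IsOneBlock F N

/-- `M` has a minor isomorphic to the `m`-point line `U_{2,m}`. -/
def HasLineMinor {α : Type} (M : Matroid α) (m : ℕ) : Prop :=
  ∃ N : Matroid α, N.IsMinor M ∧ N.E.encard = m ∧ ∀ I ⊆ N.E, (N.Indep I ↔ I.encard ≤ 2)

/-- `M` has a minor isomorphic to the cycle matroid of `K_4`: its elements are in bijection with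
the edges of `K_4`, the independent sets being the forests. -/
def HasMK4Minor {α : Type} (M : Matroid α) : Prop :=
  ∃ N : Matroid α, N.IsMinor M ∧ ∃ g : Sym2 (Fin 4) → α,
    Set.BijOn g (⊤ : SimpleGraph (Fin 4)).edgeSet N.E ∧
    ∀ I ⊆ (⊤ : SimpleGraph (Fin 4)).edgeSet,
      (N.Indep (g '' I) ↔ (SimpleGraph.fromEdgeSet I).IsAcyclic)

noncomputable def MU : Matroid (Fin 28) := vecMatroid F9 pt

theorem MU_indep (I : Set (Fin 28)) : MU.Indep I ↔ LinearIndepOn F9 pt I := Iff.rfl

theorem MU_E : MU.E = Set.univ := rfl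

theorem triple_iff (a b c : Fin 28) (hab : a ≠ b) (hac : a ≠ c) (hbc : b ≠ c) :
    MU.Indep {a, b, c} ↔ col a.1 b.1 c.1 = false := by
  rw [MU_indep, indep_triple_iff pt a b c hab hac hbc]
  have h := allLt_spec (allLt_spec (allLt_spec det_check a.1 a.2) b.1 b.2) c.1 c.2
  have h2 : (pt a 0 * pt b 1 * pt c 2 - pt a 0 * pt b 2 * pt c 1 - pt a 1 * pt b 0 * pt c 2
        + pt a 1 * pt b 2 * pt c 0 + pt a 2 * pt b 0 * pt c 1 - pt a 2 * pt b 1 * pt c 0 = 0) ↔
      detN a.1 b.1 c.1 = 0 := by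
    constructor
    · intro h0
      exact congrArg val9 h0
    · intro h0
      exact Fin.ext h0
  rw [Ne, h2, ← Nat.beq_eq]
  rw [beq_iff_eq] at h
  rw [h]
  simp

theorem ne_of_not_col {a b c : Fin 28} (h : col a.1 b.1 c.1 = false) :
    a ≠ b ∧ a ≠ c ∧ b ≠ c := by
  refine ⟨?_, ?_, ?_⟩
  · rintro rfl
    have := allLt_spec (allLt_spec deg_check a.1 a.2) c.1 c.2
    simp [h] at this
  · rintro rfl
    have := allLt_spec (allLt_spec deg_check a.1 a.2) b.1 b.2
    simp [h] at this
  · rintro rfl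
    have := allLt_spec (allLt_spec deg_check b.1 b.2) a.1 a.2
    simp [h] at this

theorem indep_of_not_col {a b c : Fin 28} (h : col a.1 b.1 c.1 = false) : MU.Indep {a, b, c} :=
  (triple_iff a b c (ne_of_not_col h).1 (ne_of_not_col h).2.1 (ne_of_not_col h).2.2).2 h

theorem pair_indep_ne (a b : Fin 28) (hab : a ≠ b) : MU.Indep {a, b} := by
  have h := allLt_spec (allLt_spec wt_check a.1 a.2) b.1 b.2
  have hne : Nat.beq a.1 b.1 = false := by
    rw [← Bool.not_eq_true, Nat.beq_eq]
    exact fun h => hab (Fin.ext h)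
  rw [hne] at h
  have h' : col a.1 b.1 (⟨wt a.1 b.1, Nat.mod_lt _ (by decide)⟩ : Fin 28).1 = false := by
    simpa using h
  exact (indep_of_not_col h').subset (by intro x hx; simp at hx ⊢; tauto)

theorem pair_indep (a b : Fin 28) : MU.Indep {a, b} := by
  by_cases hab : a = b
  · subst hab
    obtain ⟨c, hc⟩ := exists_ne a
    exact (pair_indep_ne a c hc.symm).subset (by intro x hx; simp at hx ⊢; tauto)
  · exact pair_indep_ne a b hab

theorem functional_eq (φ : (Fin 3 → F9) →ₗ[F9] F9) (x : Fin 3 → F9) :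
    φ x = x 0 * φ (Pi.single 0 1) + x 1 * φ (Pi.single 1 1) + x 2 * φ (Pi.single 2 1) := by
  have : x = x 0 • (Pi.single 0 1 : Fin 3 → F9) + x 1 • (Pi.single 1 1 : Fin 3 → F9)
      + x 2 • (Pi.single 2 1 : Fin 3 → F9) := by
    ext i
    fin_cases i <;> simp
  conv_lhs => rw [this]
  simp only [map_add, map_smul, smul_eq_mul]

theorem card_le_three {I : Set (Fin 28)} (hI : MU.Indep I) : I.ncard ≤ 3 := by
  classical
  have h := LinearIndependent.fintype_card_le_finrank ((MU_indep I).1 hI)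
  rw [← Nat.card_eq_fintype_card, Nat.card_coe_set_eq] at h
  simpa using h

theorem block_MU : IsOneBlock F9 MU := by
  refine ⟨⟨Set.toFinite _, fun e _ f _ => pair_indep e f⟩, 3, pt, ⟨fun I _ => MU_indep I, ?_⟩, ?_⟩
  · have h : MU.Indep {0, 4, 8} := indep_of_not_col (by decide +kernel)
    have h2 := LinearIndependent.span_eq_top_of_card_eq_finrank' ((MU_indep _).1 h)
      (by
        rw [← Nat.card_eq_fintype_card, Nat.card_coe_set_eq,
          Set.ncard_eq_three.2 ⟨0, 4, 8, by decide, by decide, by decide, rfl⟩]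
        simp)
    rw [eq_top_iff, ← h2]
    apply Submodule.span_mono
    rintro _ ⟨x, rfl⟩
    exact ⟨x.1, Set.mem_univ _, rfl⟩
  · intro φ
    obtain ⟨e, he⟩ := block_check (φ (Pi.single 0 1)) (φ (Pi.single 1 1)) (φ (Pi.single 2 1))
    exact ⟨e, Set.mem_univ _, by rw [functional_eq, he]⟩

theorem minor_cases {N : Matroid (Fin 28)} (h : N.IsMinor MU) :
    (∀ I ⊆ N.E, (N.Indep I ↔ MU.Indep I)) ∨
      ∃ e, e ∉ N.E ∧ ∀ I, N.Indep I → MU.Indep (insert e I) := by
  obtain ⟨C, D, rfl⟩ := h
  rcases C.eq_empty_or_nonempty with rfl | ⟨e, he⟩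
  · left
    intro I hI
    rw [Matroid.contract_empty] at hI ⊢
    rw [Matroid.delete_indep_iff, and_iff_left]
    rw [Matroid.delete_ground] at hI
    exact (Set.subset_sdiff.1 hI).2
  · right
    refine ⟨e, fun h => h.1.2 he, fun I hI => ?_⟩
    have h1 : MU.Indep {e} := by simpa using pair_indep e e
    obtain ⟨B, hB, heB⟩ := h1.subset_isBasis_of_subset (X := C) (by simpa using he)
      (Set.subset_univ _)
    have h2 := (hB.contract_indep_iff.1 (Matroid.delete_indep_iff.1 hI).1).1
    refine h2.subset ?_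
    rintro x (rfl | hx)
    · exact Or.inr (heB rfl)
    · exact Or.inl hx

theorem ncard_le_nine {N : Matroid (Fin 28)} (hs : ∀ f ∈ N.E, ∀ g ∈ N.E, N.Indep {f, g})
    {e : Fin 28} (he : e ∉ N.E) (h : ∀ I, N.Indep I → MU.Indep (insert e I)) :
    N.E.ncard ≤ 9 := by
  have := Set.ncard_le_ncard_of_injOn (s := N.E) (t := (Set.univ : Set (Fin 9)))
    (fun f => (⟨sl e.1 f.1, Nat.mod_lt _ (by decide)⟩ : Fin 9)) (fun _ _ => Set.mem_univ _)
    (by
      intro f hf g hg hfg
      by_contra hne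
      have h1 := (triple_iff e f g (fun h => he (h ▸ hf)) (fun h => he (h ▸ hg)) hne).1
        (h _ (hs f hf g hg))
      have h2 := allLt_spec (allLt_spec (allLt_spec sl_check e.1 e.2) f.1 f.2) g.1 g.2
      have h3 : sl e.1 f.1 = sl e.1 g.1 := congrArg Fin.val hfg
      simp [h1, h3] at h2)
  simpa [Set.ncard_univ] using this

theorem tangential_MU : IsTangentialOneBlock F9 MU := by
  refine ⟨block_MU, fun N hN ⟨⟨hfin, hs⟩, n, w, ⟨hrep, _⟩, hblock⟩ => ?_⟩
  have key : ∃ φ : (Fin n → F9) →ₗ[F9] F9, ∀ e ∈ N.E, φ (w e) ≠ 0 := by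
    rcases minor_cases hN.isMinor with h | ⟨e, he, h⟩
    · obtain ⟨e, -, he⟩ := Set.exists_of_ssubset hN.ssubset
      refine exists_nonvanish_transfer pt w N.E hfin
        (fun I hI => by rw [← MU_indep, ← h I hI, hrep I hI]) ?_
      refine ⟨tg e 0 • LinearMap.proj 0 + tg e 1 • LinearMap.proj 1 + tg e 2 • LinearMap.proj 2,
        fun f hf => ?_⟩
      simpa using tangent_check e f (fun h => he (h ▸ hf))
    · have h9 := ncard_le_nine hs he h
      obtain ⟨φ, hφ⟩ := exists_nonvanish_of_card_le (F := F9) w hfin.toFinset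
        (by rw [card_F9, ← Set.ncard_eq_toFinset_card _ hfin]; exact h9)
        (by
          intro f hf
          rw [Set.Finite.mem_toFinset] at hf
          have h1 : N.Indep {f} := by simpa using hs f hf f hf
          have h2 := (hrep {f} (by simpa using hf)).1 h1
          simpa using h2)
      exact ⟨φ, fun f hf => hφ f (by simpa using hf)⟩
  obtain ⟨φ, hφ⟩ := key
  obtain ⟨e, he, h0⟩ := hblock φ
  exact hφ e he h0

theorem col_cases {a b c : Fin 28} (hab : a ≠ b) (hac : a ≠ c) (hbc : b ≠ c)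
    (h : ¬ MU.Indep {a, b, c}) : c.1 = o1 a.1 b.1 ∨ c.1 = o2 a.1 b.1 := by
  rw [triple_iff a b c hab hac hbc] at h
  have h1 := allLt_spec (allLt_spec (allLt_spec oth_check a.1 a.2) b.1 b.2) c.1 c.2
  have h2 : a.1 ≠ b.1 := fun h => hab (Fin.ext h)
  have h3 : a.1 ≠ c.1 := fun h => hac (Fin.ext h)
  have h4 : b.1 ≠ c.1 := fun h => hbc (Fin.ext h)
  simp only [Bool.or_eq_true, Nat.beq_eq, Bool.not_eq_true'] at h1
  tauto

theorem no_line : ¬ HasLineMinor MU 10 := by
  rintro ⟨N, hN, hcard, hind⟩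
  have hn : N.E.ncard = 10 := by
    rw [Set.ncard_def, hcard]
    rfl
  have hs : ∀ f ∈ N.E, ∀ g ∈ N.E, N.Indep {f, g} := by
    intro f hf g hg
    rw [hind _ (by rintro x (rfl | rfl) <;> assumption)]
    refine (Set.encard_insert_le _ _).trans ?_
    rw [Set.encard_singleton]
    rfl
  rcases minor_cases hN with h | ⟨e, he, h⟩
  · obtain ⟨a, ha, b, hb, hab⟩ := (Set.one_lt_ncard (Set.toFinite N.E)).1 (by omega)
    have h1 : Fin.val '' N.E ⊆ {a.1, b.1, o1 a.1 b.1, o2 a.1 b.1} := by
      rintro _ ⟨c, hc, rfl⟩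
      by_cases hac : a = c
      · simp [hac]
      by_cases hbc : b = c
      · simp [hbc]
      have hsub : ({a, b, c} : Set (Fin 28)) ⊆ N.E := by
        rintro x (rfl | rfl | rfl) <;> assumption
      have h2 : ¬ MU.Indep {a, b, c} := by
        rw [← h _ hsub, hind _ hsub, Set.encard_eq_three.2 ⟨a, b, c, hab, hac, hbc, rfl⟩]
        decide
      rcases col_cases hab hac hbc h2 with h3 | h3 <;> simp [← h3]
    have h4 := Set.ncard_le_ncard h1 (Set.toFinite _)
    rw [Set.ncard_image_of_injective _ Fin.val_injective, hn] at h4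
    have h5 := Set.ncard_insert_le a.1 {b.1, o1 a.1 b.1, o2 a.1 b.1}
    have h6 := Set.ncard_insert_le b.1 {o1 a.1 b.1, o2 a.1 b.1}
    have h7 := Set.ncard_insert_le (o1 a.1 b.1) {o2 a.1 b.1}
    rw [Set.ncard_singleton] at h7
    omega
  · have := ncard_le_nine hs he h
    omega

theorem star_acyclic : (SimpleGraph.fromEdgeSet
    ({s(0, 1), s(0, 2), s(0, 3)} : Set (Sym2 (Fin 4)))).IsAcyclic := by
  refine SimpleGraph.IsAcyclic.anti ?_ (SimpleGraph.isAcyclic_starGraph (0 : Fin 4))
  intro x y h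
  rw [SimpleGraph.starGraph_adj]
  rw [SimpleGraph.fromEdgeSet_adj] at h
  refine ⟨h.2, ?_⟩
  have h1 := h.1
  simp only [Set.mem_insert_iff, Set.mem_singleton_iff, Sym2.eq_iff] at h1
  tauto

theorem tri_cyclic (x y z : Fin 4) (hxy : x ≠ y) (hxz : x ≠ z) (hyz : y ≠ z) :
    ¬ (SimpleGraph.fromEdgeSet ({s(x, y), s(x, z), s(y, z)} : Set (Sym2 (Fin 4)))).IsAcyclic := by
  intro h
  obtain ⟨c⟩ := h.colorable_two
  have h1 : c x ≠ c y := c.valid (by simp [SimpleGraph.fromEdgeSet_adj, hxy])
  have h2 : c x ≠ c z := c.valid (by simp [SimpleGraph.fromEdgeSet_adj, hxz])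
  have h3 : c y ≠ c z := c.valid (by simp [SimpleGraph.fromEdgeSet_adj, hyz])
  omega

theorem no_K4 : ¬ HasMK4Minor MU := by
  rintro ⟨N, hN, g, hg, hind⟩
  have hne : ∀ x y z w : Fin 4, x ≠ y → z ≠ w → s(x, y) ≠ s(z, w) → g s(x, y) ≠ g s(z, w) :=
    fun x y z w h1 h2 h3 h4 => h3 (hg.injOn (by simpa using h1) (by simpa using h2) h4)
  have hmem : ∀ x y : Fin 4, x ≠ y → g s(x, y) ∈ N.E :=
    fun x y h => hg.mapsTo (by simpa using h)
  have hstar : N.Indep {g s(0, 1), g s(0, 2), g s(0, 3)} := by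
    have := (hind {s(0, 1), s(0, 2), s(0, 3)}
      (by rintro x (rfl | rfl | rfl) <;> simp)).2 star_acyclic
    simpa [Set.image_insert_eq] using this
  have htri : ∀ x y z : Fin 4, x ≠ y → x ≠ z → y ≠ z →
      ¬ N.Indep {g s(x, y), g s(x, z), g s(y, z)} := by
    intro x y z hxy hxz hyz hI
    refine tri_cyclic x y z hxy hxz hyz ((hind {s(x, y), s(x, z), s(y, z)}
      (by rintro x (rfl | rfl | rfl) <;> simpa)).1 ?_)
    simpa [Set.image_insert_eq] using hI
  have hab := hne 0 1 0 2 (by decide) (by decide) (by decide)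
  have had := hne 0 1 0 3 (by decide) (by decide) (by decide)
  have hbd := hne 0 2 0 3 (by decide) (by decide) (by decide)
  rcases minor_cases hN with h | ⟨e, he, h⟩
  · have hM : ∀ x y z : Fin 4, x ≠ y → x ≠ z → y ≠ z →
        ¬ MU.Indep {g s(x, y), g s(x, z), g s(y, z)} := by
      intro x y z hxy hxz hyz
      rw [← h _ (by rintro x (rfl | rfl | rfl) <;> apply hmem <;> assumption)]
      exact htri x y z hxy hxz hyz
    have h0 := (triple_iff _ _ _ hab had hbd).1 (hstar.of_isMinor hN)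
    have h1 := col_cases hab (hne 0 1 1 2 (by decide) (by decide) (by decide))
      (hne 0 2 1 2 (by decide) (by decide) (by decide))
      (hM 0 1 2 (by decide) (by decide) (by decide))
    have h2 := col_cases had (hne 0 1 1 3 (by decide) (by decide) (by decide))
      (hne 0 3 1 3 (by decide) (by decide) (by decide))
      (hM 0 1 3 (by decide) (by decide) (by decide))
    have h3 := col_cases hbd (hne 0 2 2 3 (by decide) (by decide) (by decide))
      (hne 0 3 2 3 (by decide) (by decide) (by decide))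
      (hM 0 2 3 (by decide) (by decide) (by decide))
    have h4 := hM 1 2 3 (by decide) (by decide) (by decide)
    rw [triple_iff _ _ _ (hne 1 2 1 3 (by decide) (by decide) (by decide))
      (hne 1 2 2 3 (by decide) (by decide) (by decide))
      (hne 1 3 2 3 (by decide) (by decide) (by decide))] at h4
    have h5 := allLt_spec (allLt_spec (allLt_spec onan_check _ (g s(0, 1)).2) _ (g s(0, 2)).2) _
      (g s(0, 3)).2
    simp only [h0, Bool.false_or, Bool.and_eq_true, Bool.not_eq_true'] at h5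
    apply h4
    rcases h1 with h1 | h1 <;> rcases h2 with h2 | h2 <;> rcases h3 with h3 | h3 <;>
      rw [h1, h2, h3] <;> tauto
  · have h1 := card_le_three (h _ hstar)
    rw [Set.ncard_insert_of_notMem (fun hx => he (hstar.subset_ground hx)),
      Set.ncard_eq_three.2 ⟨_, _, _, hab, had, hbd, rfl⟩] at h1
    omega

/-- Over the field with nine elements there is a tangential 1-block with neither the
ten-point line nor `M(K_4)` as a minor. -/
theorem result : ∃ (F : Type) (_ : Field F) (_ : Fintype F), Fintype.card F = 9 ∧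
    ∃ M : Matroid (Fin 28), IsTangentialOneBlock F M ∧
      ¬ HasLineMinor M (Fintype.card F + 1) ∧ ¬ HasMK4Minor M :=
  ⟨F9, inferInstance, inferInstance, card_F9, MU, tangential_MU,
    by rw [card_F9]; exact no_line, no_K4⟩

end Pool.Agent.Results.MP_e444a1_co.Unital
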